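import Pool.Agent.Helper95.BS.Nary

/-!
# From an affine monotone function to the homeomorphism (binary case)
-/

set_option autoImplicit false

namespace Pool.Agent.Helper95.BS

open Set

variable {a b : ℝ}

theorem gap_free {K : Set ℝ} (hK : IsClosed K) {α β : ℝ} (hα : 0 < α) (hβ : 0 < β)
    (hab : α + β = 1) (hop : ∀ s ∈ K, ∀ t ∈ K, α * s + β * t ∈ K) (h0 : (0 : ℝ) ∈ K)
    (h1 : (1 : ℝ) ∈ K) : Icc (0 : ℝ) 1 ⊆ K := by
  intro t ht
  by_contra hn
  set U : Set ℝ := K ∩ Iic t with hU
  set V : Set ℝ := K ∩ Ici t with hV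
  have hUne : U.Nonempty := ⟨0, h0, ht.1⟩
  have hVne : V.Nonempty := ⟨1, h1, ht.2⟩
  have hUb : BddAbove U := ⟨t, fun x hx => hx.2⟩
  have hVb : BddBelow V := ⟨t, fun x hx => hx.2⟩
  have hu : sSup U ∈ U := (hK.inter isClosed_Iic).csSup_mem hUne hUb
  have hv : sInf V ∈ V := (hK.inter isClosed_Ici).csInf_mem hVne hVb
  set u := sSup U
  set v := sInf V
  have hut : u < t := lt_of_le_of_ne hu.2 (fun h => hn (h ▸ hu.1))
  have htv : t < v := lt_of_le_of_ne hv.2 (fun h => hn (h ▸ hv.1))
  have huv : u < v := hut.trans htv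
  have hm := hop u hu.1 v hv.1
  have e1 : u < α * u + β * v := by
    have : α * u + β * v = u + β * (v - u) := by
      have : α = 1 - β := by linarith
      rw [this]; ring
    rw [this]
    have := mul_pos hβ (sub_pos.2 huv)
    linarith
  have e2 : α * u + β * v < v := by
    have : α * u + β * v = v - α * (v - u) := by
      have : β = 1 - α := by linarith
      rw [this]; ring
    rw [this]
    have := mul_pos hα (sub_pos.2 huv)
    linarith
  rcases le_total (α * u + β * v) t with h | h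
  · have : α * u + β * v ≤ u := le_csSup hUb ⟨hm, h⟩
    linarith
  · have : v ≤ α * u + β * v := csInf_le hVb ⟨hm, h⟩
    linarith

theorem bin_of_f (hab : a < b) (op : Icc a b → Icc a b → Icc a b)
    (hm1 : ∀ x x' y, x < x' → op x y < op x' y)
    (f : Icc a b → ℝ) (hf : Monotone f)
    (hA : f ⟨a, left_mem_Icc.2 hab.le⟩ = 0) (hB : f ⟨b, right_mem_Icc.2 hab.le⟩ = 1)
    {α β : ℝ} (hα : 0 < α) (hβ : 0 < β) (hab1 : α + β = 1)
    (hop : ∀ x y, f (op x y) = α * f x + β * f y) : BinForm a b op := by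
  have h01 : ∀ x, f x ∈ Icc (0 : ℝ) 1 := by
    intro x
    constructor
    · rw [← hA]; exact hf x.2.1
    · rw [← hB]; exact hf x.2.2
  have hcl : Icc (0 : ℝ) 1 ⊆ closure (range f) := by
    apply gap_free isClosed_closure hα hβ hab1
    · intro s hs t ht
      refine map_mem_closure₂ (f := fun s t : ℝ => α * s + β * t) (by fun_prop) hs ht ?_
      rintro _ ⟨x, rfl⟩ _ ⟨y, rfl⟩
      exact ⟨op x y, hop x y⟩
    · exact subset_closure ⟨_, hA⟩
    · exact subset_closure ⟨_, hB⟩
  let g : Icc a b → Icc (0 : ℝ) 1 := fun x => ⟨f x, h01 x⟩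
  have hg : Monotone g := fun x y h => hf h
  have hdense : DenseRange g := by
    intro t
    rw [Topology.IsInducing.subtypeVal.closure_eq_preimage_closure_image (range g)]
    have : ((↑) : Icc (0 : ℝ) 1 → ℝ) '' (range g) = range f := by
      ext s
      constructor
      · rintro ⟨_, ⟨x, rfl⟩, rfl⟩; exact ⟨x, rfl⟩
      · rintro ⟨x, rfl⟩; exact ⟨g x, ⟨x, rfl⟩, rfl⟩
    show (t : ℝ) ∈ closure (((↑) : Icc (0 : ℝ) 1 → ℝ) '' (range g))
    rw [this]
    exact hcl t.2
  have hgc : Continuous g := hg.continuous_of_denseRange hdense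
  have hfc : Continuous f := continuous_subtype_val.comp hgc
  have hsurj : ∀ t ∈ Icc (0 : ℝ) 1, ∃ x, f x = t := by
    have : PreconnectedSpace (Icc a b) := Subtype.preconnectedSpace isPreconnected_Icc
    intro t ht
    have := intermediate_value_univ (⟨a, left_mem_Icc.2 hab.le⟩ : Icc a b)
      (⟨b, right_mem_Icc.2 hab.le⟩ : Icc a b) hfc
    rw [hA, hB] at this
    exact this ht
  have hinj : ∀ x y : Icc a b, x < y → f x ≠ f y := by
    intro x y hxy he
    choose w hw using fun t : Icc (0 : ℝ) 1 => hsurj t t.2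
    have hq : ∀ t : Icc (0 : ℝ) 1, ∃ q : ℚ, ((op x (w t) : Icc a b) : ℝ) < q ∧
        (q : ℝ) < ((op y (w t) : Icc a b) : ℝ) := by
      intro t
      have : op x (w t) < op y (w t) := hm1 x y (w t) hxy
      exact exists_rat_btwn (Subtype.coe_lt_coe.2 this)
    choose q hq1 hq2 using hq
    have hle : ∀ s t : Icc (0 : ℝ) 1, q s = q t → (s : ℝ) ≤ t := by
      intro s t hst
      have h1 : ((op x (w s) : Icc a b) : ℝ) < ((op y (w t) : Icc a b) : ℝ) := by
        calc ((op x (w s) : Icc a b) : ℝ) < q s := hq1 s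
          _ = q t := by rw [hst]
          _ < _ := hq2 t
      have h2 : op x (w s) ≤ op y (w t) := (Subtype.coe_lt_coe.1 h1).le
      have h3 := hf h2
      rw [hop, hop, hw, hw, he] at h3
      have h4 : β * (s : ℝ) ≤ β * (t : ℝ) := by linarith
      exact le_of_mul_le_mul_left h4 hβ
    have hqi : Function.Injective q := fun s t h =>
      Subtype.ext (le_antisymm (hle s t h) (hle t s h.symm))
    have hc : Countable (Icc (0 : ℝ) 1) := hqi.countable
    have h5 : Cardinal.mk (Icc (0 : ℝ) 1) ≤ Cardinal.aleph0 := Cardinal.mk_le_aleph0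
    rw [Cardinal.mk_Icc_real zero_lt_one] at h5
    exact absurd h5 (not_le.2 Cardinal.aleph0_lt_continuum)
  have hinj' : Function.Injective f := by
    intro x y he
    rcases lt_trichotomy x y with h | h | h
    · exact absurd he (hinj x y h)
    · exact h
    · exact absurd he.symm (hinj y x h)
  exact ⟨f, α, β, hfc, hf.strictMono_of_injective hinj', h01, hsurj, hα, hβ, hab1, hop⟩

end Pool.Agent.Helper95.BS
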