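import Mathlib

/-!
# From the binary theorem to the n-ary one (S03785)
-/

set_option autoImplicit false

namespace Pool.Agent.Helper95.BS

open Set

variable {a b : ℝ} {n : ℕ}

/-- the conclusion of the binary theorem for one operation -/
def BinForm (a b : ℝ) (op : Icc a b → Icc a b → Icc a b) : Prop :=
  ∃ (f : Icc a b → ℝ) (α β : ℝ), Continuous f ∧ StrictMono f ∧ (∀ x, f x ∈ Icc (0 : ℝ) 1) ∧
    (∀ t ∈ Icc (0 : ℝ) 1, ∃ x, f x = t) ∧ 0 < α ∧ 0 < β ∧ α + β = 1 ∧
    ∀ x y, f (op x y) = α * f x + β * f y

theorem mono_le (F : (Fin n → Icc a b) → Icc a b)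
    (hmono : ∀ (x : Fin n → Icc a b) (i : Fin n),
            StrictMono (fun t : Icc a b => F (Function.update x i t)))
    (x y : Fin n → Icc a b) (h : ∀ i, x i ≤ y i) : F x ≤ F y := by
  have key : ∀ s : Finset (Fin n), F x ≤ F (s.piecewise y x) := by
    intro s
    induction s using Finset.induction_on with
    | empty => simp
    | insert j s hj ih =>
      refine ih.trans ?_
      rw [Finset.piecewise_insert]
      have h1 : s.piecewise y x = Function.update (s.piecewise y x) j (x j) := by
        conv_lhs => rw [← Function.update_eq_self j (s.piecewise y x)]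
        rw [Finset.piecewise_eq_of_notMem _ _ _ hj]
      conv_lhs => rw [h1]
      exact (hmono (s.piecewise y x) j).monotone (h j)
  have := key Finset.univ
  simpa using this

theorem mono_lt (F : (Fin n → Icc a b) → Icc a b)
    (hmono : ∀ (x : Fin n → Icc a b) (i : Fin n),
            StrictMono (fun t : Icc a b => F (Function.update x i t)))
    (x y : Fin n → Icc a b) (h : ∀ i, x i ≤ y i) (i : Fin n) (hi : x i < y i) : F x < F y := by
  have h1 : F x ≤ F (Function.update y i (x i)) := by
    apply mono_le F hmono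
    intro j
    by_cases hj : j = i
    · subst hj; simp
    · simp [Function.update_of_ne hj, h j]
  have h2 : F (Function.update y i (x i)) < F (Function.update y i (y i)) := hmono y i hi
  rw [Function.update_eq_self] at h2
  exact h1.trans_lt h2

theorem split_exists {α β s t : ℝ} (hα : 0 < α) (hβ : 0 < β) (hab : α + β = 1)
    (hs : s ∈ Icc (0 : ℝ) 1) (ht : t ∈ Icc (0 : ℝ) 1) (h : |s - t| ≤ α) :
    ∃ u ∈ Icc (0 : ℝ) 1, ∃ v ∈ Icc (0 : ℝ) 1, ∃ w ∈ Icc (0 : ℝ) 1,
      s = α * u + β * w ∧ t = α * v + β * w := by
  obtain ⟨hs0, hs1⟩ := hs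
  obtain ⟨ht0, ht1⟩ := ht
  rw [abs_le] at h
  set c := max 0 (max s t - α) with hc
  have c0 : 0 ≤ c := le_max_left _ _
  have c1 : max s t - α ≤ c := le_max_right _ _
  have cs : s - α ≤ c := by have := le_max_left s t; linarith
  have ct : t - α ≤ c := by have := le_max_right s t; linarith
  have cle : c ≤ β := by
    apply max_le hβ.le
    have : max s t ≤ 1 := max_le hs1 ht1
    linarith
  have c_s : c ≤ s := by
    apply max_le hs0
    have : max s t ≤ s + α := max_le (by linarith) (by linarith)
    linarith
  have c_t : c ≤ t := by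
    apply max_le ht0
    have : max s t ≤ t + α := max_le (by linarith) (by linarith)
    linarith
  refine ⟨(s - c) / α, ⟨div_nonneg (by linarith) hα.le, ?_⟩, (t - c) / α,
    ⟨div_nonneg (by linarith) hα.le, ?_⟩, c / β, ⟨div_nonneg c0 hβ.le, ?_⟩, ?_, ?_⟩
  · rw [div_le_one hα]; linarith
  · rw [div_le_one hα]; linarith
  · rw [div_le_one hβ]; exact cle
  · field_simp; ring
  · field_simp; ring

theorem contraction (F : (Fin n → Icc a b) → Icc a b) (op : Icc a b → Icc a b → Icc a b)
    (hmix : ∀ x y : Fin n → Icc a b, F (fun i => op (x i) (y i)) = op (F x) (F y))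
    {f : Icc a b → ℝ} {α β : ℝ} (hf : StrictMono f) (h01 : ∀ x, f x ∈ Icc (0 : ℝ) 1)
    (hsurj : ∀ t ∈ Icc (0 : ℝ) 1, ∃ x, f x = t) (hα : 0 < α) (hβ : 0 < β) (hab : α + β = 1)
    (hop : ∀ x y, f (op x y) = α * f x + β * f y) (k : ℕ) :
    ∀ x y : Fin n → Icc a b, (∀ i, |f (x i) - f (y i)| ≤ α ^ k) → |f (F x) - f (F y)| ≤ α ^ k := by
  induction k with
  | zero =>
    intro x y _
    have h1 := h01 (F x)
    have h2 := h01 (F y)
    rw [pow_zero, abs_le]
    constructor <;> linarith [h1.1, h1.2, h2.1, h2.2]
  | succ k ih =>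
    intro x y h
    have hα1 : α ≤ 1 := by linarith
    have hpow : α ^ (k + 1) ≤ α := by
      rw [pow_succ]
      calc α ^ k * α ≤ 1 * α := by
            apply mul_le_mul_of_nonneg_right _ hα.le
            exact pow_le_one₀ hα.le hα1
        _ = α := one_mul α
    have H : ∀ i, ∃ u v w : Icc a b, x i = op u w ∧ y i = op v w := by
      intro i
      obtain ⟨u, hu, v, hv, w, hw, e1, e2⟩ :=
        split_exists hα hβ hab (h01 (x i)) (h01 (y i)) ((h i).trans hpow)
      obtain ⟨u', rfl⟩ := hsurj u hu
      obtain ⟨v', rfl⟩ := hsurj v hv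
      obtain ⟨w', rfl⟩ := hsurj w hw
      refine ⟨u', v', w', hf.injective ?_, hf.injective ?_⟩
      · rw [hop, e1]
      · rw [hop, e2]
    choose u v w hx hy using H
    have ex : x = fun i => op (u i) (w i) := funext hx
    have ey : y = fun i => op (v i) (w i) := funext hy
    have hFx : f (F x) = α * f (F u) + β * f (F w) := by rw [ex, hmix, hop]
    have hFy : f (F y) = α * f (F v) + β * f (F w) := by rw [ey, hmix, hop]
    have huv : ∀ i, |f (u i) - f (v i)| ≤ α ^ k := by
      intro i
      have h3 := h i
      rw [hx i, hy i, hop, hop] at h3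
      have h4 : α * f (u i) + β * f (w i) - (α * f (v i) + β * f (w i))
          = α * (f (u i) - f (v i)) := by ring
      rw [h4, abs_mul, abs_of_pos hα, pow_succ, mul_comm (α ^ k) α] at h3
      exact le_of_mul_le_mul_left h3 hα
    have h5 := ih u v huv
    rw [hFx, hFy]
    have h4 : α * f (F u) + β * f (F w) - (α * f (F v) + β * f (F w))
          = α * (f (F u) - f (F v)) := by ring
    rw [h4, abs_mul, abs_of_pos hα, pow_succ, mul_comm (α ^ k) α]
    exact mul_le_mul_of_nonneg_left h5 hα.le

theorem nary (hab : a < b) (hn : 2 ≤ n)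
    (bin : ∀ op : Icc a b → Icc a b → Icc a b, (∀ x, op x x = x) →
      (∀ x y u v, op (op x y) (op u v) = op (op x u) (op y v)) →
      (∀ x x' y, x < x' → op x y < op x' y) → (∀ x y y', y < y' → op x y < op x y') →
      BinForm a b op)
    (F : (Fin n → Icc a b) → Icc a b)
    (hrefl : ∀ x : Icc a b, F (fun _ => x) = x)
    (hbis : ∀ M : Fin n → Fin n → Icc a b,
            F (fun i => F (M i)) = F (fun j => F (fun i => M i j)))
    (hmono : ∀ (x : Fin n → Icc a b) (i : Fin n),
            StrictMono (fun t : Icc a b => F (Function.update x i t))) :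
    Continuous F := by
  classical
  let i0 : Fin n := ⟨0, by omega⟩
  let i1 : Fin n := ⟨1, by omega⟩
  have h10 : i1 ≠ i0 := by simp [i0, i1, Fin.ext_iff]
  let row : Icc a b → Icc a b → Fin n → Icc a b := fun x y => Function.update (fun _ => y) i0 x
  let op : Icc a b → Icc a b → Icc a b := fun x y => F (row x y)
  have row0 : ∀ x y, row x y i0 = x := fun x y => by simp [row]
  have rowne : ∀ x y j, j ≠ i0 → row x y j = y := fun x y j hj => by
    simp [row, Function.update_of_ne hj]
  have row_eq : ∀ (g : Fin n → Icc a b) (x y : Icc a b), g i0 = x → (∀ j, j ≠ i0 → g j = y) →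
      g = row x y := by
    intro g x y h0 h1
    funext j
    by_cases hj : j = i0
    · subst hj; rw [h0, row0]
    · rw [h1 j hj, rowne x y j hj]
  have hmix : ∀ x y : Fin n → Icc a b, F (fun i => op (x i) (y i)) = op (F x) (F y) := by
    intro x y
    have := hbis (fun i => row (x i) (y i))
    show F (fun i => F (row (x i) (y i))) = F (row (F x) (F y))
    rw [this]
    congr 1
    apply row_eq
    · simp only [row0]
    · intro j hj
      simp only [rowne _ _ j hj]
  have hrefl2 : ∀ x, op x x = x := by
    intro x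
    show F (row x x) = x
    have : row x x = fun _ => x := (row_eq (fun _ => x) x x rfl (fun _ _ => rfl)).symm
    rw [this, hrefl]
  have hbis2 : ∀ x y u v, op (op x y) (op u v) = op (op x u) (op y v) := by
    intro x y u v
    have h1 : op (op x y) (op u v) = op (F (row x y)) (F (row u v)) := rfl
    rw [h1, ← hmix]
    show F (fun i => op (row x y i) (row u v i)) = F (row (op x u) (op y v))
    congr 1
    apply row_eq
    · rw [row0, row0]
    · intro j hj
      rw [rowne _ _ j hj, rowne _ _ j hj]
  have hm1 : ∀ x x' y, x < x' → op x y < op x' y := by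
    intro x x' y h
    exact hmono (fun _ => y) i0 h
  have hm2 : ∀ x y y', y < y' → op x y < op x y' := by
    intro x y y' h
    apply mono_lt F hmono (row x y) (row x y') _ i1
    · rw [rowne _ _ i1 h10, rowne _ _ i1 h10]; exact h
    · intro i
      by_cases hi : i = i0
      · subst hi; rw [row0, row0]
      · rw [rowne _ _ i hi, rowne _ _ i hi]; exact h.le
  obtain ⟨f, α, β, hfc, hfm, h01, hsurj, hα, hβ, hab1, hop⟩ := bin op hrefl2 hbis2 hm1 hm2
  have hemb : Topology.IsClosedEmbedding f := hfc.isClosedEmbedding hfm.injective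
  rw [hemb.isInducing.continuous_iff]
  rw [continuous_iff_continuousAt]
  intro x
  rw [Metric.continuousAt_iff']
  intro ε hε
  have hα1 : α < 1 := by linarith
  obtain ⟨k, hk⟩ := exists_pow_lt_of_lt_one hε hα1
  have hpos : 0 < α ^ k := pow_pos hα k
  have hev : ∀ i : Fin n, ∀ᶠ y : Fin n → Icc a b in nhds x, |f (y i) - f (x i)| < α ^ k := by
    intro i
    have hc : Continuous (fun y : Fin n → Icc a b => f (y i)) := hfc.comp (continuous_apply i)
    have hca : ContinuousAt (fun y : Fin n → Icc a b => f (y i)) x := hc.continuousAt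
    have := (Metric.continuousAt_iff'.1 hca) (α ^ k) hpos
    simpa [Real.dist_eq] using this
  filter_upwards [Filter.eventually_all.2 hev] with y hy
  have := contraction F op hmix hfm h01 hsurj hα hβ hab1 hop k y x (fun i => (hy i).le)
  simp only [Function.comp, Real.dist_eq]
  exact this.trans_lt hk

end Pool.Agent.Helper95.BS
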